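import Pool.Agent.D0H36.LW.Uni

/-!
# Laws of large characters, third part: flatness of the distribution of additive functions

* SMOOTH.  Let `f` be additive, `f X = f (X - 1) = 0`.  For each planar `G₀` the distributions of
  `f (chr G)` and `f (chr G) + f (chr G₀)` (`G` a random planar graph on `Fin n`) have a distance `≤ C / √n`.

  (a) CORE.  Let `A`, `B` be `TwoEdge` planar graphs on `Fin h` and `g = f (chr B) - f (chr A)`, not `0`.  By
  `fam_add` (Swap.lean) with `S' = S` and any `I : ℝ → ℝ` with values in `[0, 1]`, for `I` and for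
  `fun y => I (y + g)`, the difference of the two sums over `Fam Cl A B S ∅` is
  `∑ G ∈ Fam Cl A B S S, ∑ j, (choose s j - choose s (j - 1)) * I (f G + j g)`, `s = #S`, and its absolute
  value is at most `(choose s (s/2)) * #(Fam S S)`, as the positive parts of the differences sum to
  `choose s (s/2)` (they telescope up to `s / 2`, then they are `≤ 0`), the negative parts too.
  Then as in `t_SPR` (Uni.lean): `choose s (s/2) / 2^s ≤ √(2/(s+1))` by CBIN, `sum_by_sites`,
  `sum_weight`, and the last lines of `t_SPR`.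
  (b) The set `D` of the real numbers `g` for which such a `C` exists is a subgroup (`AddSubgroup ℝ`; triangle
  inequality, apply the bound to `T - g`), and contains `f (chr B) - f (chr A)` for all `A`, `B` as in (a).
  (c) So the function `p ↦ f p` with values in `ℝ ⧸ D` (as multiplicative group `Multiplicative (ℝ ⧸ D)`)
  is `IsMul` and `Triv`; by TRIV it vanishes on all planar graphs, i.e. `f (chr G₀) ∈ D`.
-/

set_option autoImplicit false

namespace Pool.Agent.D0H36.LW

open Polynomial Pool.Agent.H207R2.BL Pool.Agent.D0H36.BL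
open Pool.Agent.R814.BL (Cl)

/-- the distributions of `f (chr G)` and `f (chr G) + g` have a distance at most `C / √n` -/
def Flat (f : ℝ[X] → Multiplicative ℝ) (g C : ℝ) : Prop := ∀ n : ℕ, 1 ≤ n → ∀ T : Set ℝ,
  |share Cl n (fun G => (f (chr G)).toAdd ∈ T) - share Cl n (fun G => (f (chr G)).toAdd + g ∈ T)| ≤
    C / Real.sqrt n

/-- (SM1) the core, (a) -/
def S_SM1 : Prop := ∀ f : ℝ[X] → Multiplicative ℝ, IsMul f → ∀ (h : ℕ) (A B : SimpleGraph (Fin h)),
  Cl (Fin h) A → Cl (Fin h) B → TwoEdge A → TwoEdge B →
  ∃ C : ℝ, Flat f ((f (chr B)).toAdd - (f (chr A)).toAdd) C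

/-- (SM2) the conclusion, (b) and (c) -/
def S_SM2 : Prop := ∀ f : ℝ[X] → Multiplicative ℝ, IsMul f → f X = 1 → f (X - 1) = 1 →
  ∀ (V : Type) [Finite V] (G : SimpleGraph V), Cl V G → ∃ C : ℝ, Flat f (f (chr G)).toAdd C

end Pool.Agent.D0H36.LW
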