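import Pool.Agent.D0H36.LW.Cor

/-!
# Laws of large characters, fifth part: additive functions are linearly large

* LIN.  Let `f ≥ 0` be additive, `f X = f (X - 1) = 0`, and `f (chr G₀) ≠ 0` for some planar `G₀`.  Then
  `f (chr G) ≥ c n` for all but a share `exp (-c n)` of the planar graphs.  Proof: some `TwoEdge` planar graph
  `B` on some `Fin h`, `0 < h`, has `f (chr B) ≥ 1` (otherwise `Triv`, and `triv_zero` of Cor.lean for
  `AddFun.real` gives `f (chr G₀) = 0`).  `f (chr G)` is at least the number of the `{B}`-sites of `G`: exactly as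
  `mu` (D0H36/BL/MultP.lean, induction on the number of disjoint sets with at most one leaving edge, by `hPR`)
  and `mult_sites` (D0H36/BL/Law2P.lean), as `f (chr G) = f (chr G[U]) + f (chr G[Uᶜ])`.  Then `hMA Cl 5 hCL`
  with `T = {B}`, as in `root_law` (Law2P.lean).
-/

set_option autoImplicit false

namespace Pool.Agent.D0H36.LW

open Polynomial Pool.Agent.H207R2.BL Pool.Agent.D0H36.BL
open Pool.Agent.R814.BL (Cl)

/-- (LIN) -/
def S_LIN : Prop := ∀ f : ℝ[X] → ℕ, AddFun f →
  (∃ (V : Type) (_ : Finite V) (G : SimpleGraph V), Cl V G ∧ f (chr G) ≠ 0) →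
  ∃ c : ℝ, 0 < c ∧ ∃ n₀ : ℕ, ∀ n : ℕ, n₀ ≤ n →
    share Cl n (fun G => (f (chr G) : ℝ) < c * n) ≤ Real.exp (-(c * n))

end Pool.Agent.D0H36.LW
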