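import Pool.Agent.D0H36.LW.Cor2
import Pool.Agent.D0H36.LW.Stm3
import Pool.Agent.D0H36.LW.Stm5

/-!
# Assembly
-/

set_option autoImplicit false

namespace Pool.Agent.D0H36.LW

open Finset Polynomial Pool.Agent.H207R2.BL Pool.Agent.D0H36.BL Filter
open Pool.Agent.R814.BL (Cl)

/-- the mean over the planar graphs on `Fin n` -/
noncomputable def mean (n : ℕ) (F : SimpleGraph (Fin n) → ℂ) : ℂ := by
  classical
  exact (∑ G : SimpleGraph (Fin n) with Cl (Fin n) G, F G) / (num Cl n : ℂ)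

/-- unitary characters: trivial or with exponentially small mean -/
theorem uni_law (hUN : S_UNI) (φ : ℝ[X] → Circle) (hφ : IsMul φ) (hne : ¬ Triv φ) :
    ∃ c : ℝ, 0 < c ∧ ∃ n₀ : ℕ, ∀ n : ℕ, n₀ ≤ n →
      ‖mean n (fun G => (φ (chr G) : ℂ))‖ ≤ Real.exp (-(c * n)) := by
  obtain ⟨c, hc, n₀, H⟩ := hUN φ hφ hne
  refine ⟨c, hc, n₀, fun n hn => ?_⟩
  have hN : (0 : ℝ) < num Cl n := by exact_mod_cast hNP n
  unfold mean
  rw [norm_div, Complex.norm_natCast, div_le_iff₀ hN]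
  exact H n hn

/-- trivial characters take the same value for all connected planar graphs with the same number of
vertices -/
theorem triv_conn (hTR : S_TRIV) {M : Type} [CommGroup M] {φ : ℝ[X] → M} (hφ : IsMul φ) (h : Triv φ)
    (V W : Type) [Finite V] [Finite W] (A : SimpleGraph V) (B : SimpleGraph W) (hA : Cl V A)
    (hB : Cl W B) (hA1 : A.Connected) (hB1 : B.Connected) (hVW : Nat.card V = Nat.card W) :
    φ (chr A) = φ (chr B) := by
  obtain ⟨c, d, h1, _, h2, h3⟩ := hTR M φ hφ h V A hA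
  obtain ⟨c', d', h1', _, h2', h3'⟩ := hTR M φ hφ h W B hB
  have e1 := h2 hA1
  have e2 := h2' hB1
  subst e1
  subst e2
  have e3 : d = d' := by omega
  rw [h3, h3', e3]

/-- flatness for natural numbers -/
theorem flat_nat (hSM : S_SM2) {f : ℝ[X] → ℕ} (hf : AddFun f) (V : Type) [Finite V]
    (G₀ : SimpleGraph V) (hG : Cl V G₀) : ∃ C : ℝ, ∀ n : ℕ, 1 ≤ n → ∀ T : Set ℕ,
      |share Cl n (fun G => f (chr G) ∈ T) - share Cl n (fun G => f (chr G) + f (chr G₀) ∈ T)| ≤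
        C / Real.sqrt n := by
  obtain ⟨C, H⟩ := hSM _ hf.real (by simp [hf.x]) (by simp [hf.x1]) V G₀ hG
  refine ⟨C, fun n hn T => ?_⟩
  have h1 := H n hn ((fun k : ℕ => (k : ℝ)) '' T)
  have h2 : ∀ k : ℕ, (k : ℝ) ∈ (fun k : ℕ => (k : ℝ)) '' T ↔ k ∈ T := by
    intro k
    constructor
    · rintro ⟨j, hj, hjk⟩
      have hjk' : (j : ℝ) = (k : ℝ) := hjk
      have : j = k := by exact_mod_cast hjk'
      rwa [← this]
    · intro hk
      exact ⟨k, hk, rfl⟩
  have h3 : (fun G : SimpleGraph (Fin n) => (Multiplicative.toAdd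
      (Multiplicative.ofAdd ((f (chr G) : ℕ) : ℝ))) ∈ (fun k : ℕ => (k : ℝ)) '' T) =
      (fun G : SimpleGraph (Fin n) => f (chr G) ∈ T) := by
    funext G
    exact propext (h2 _)
  have h4 : (fun G : SimpleGraph (Fin n) => (Multiplicative.toAdd
      (Multiplicative.ofAdd ((f (chr G) : ℕ) : ℝ))) + (Multiplicative.toAdd
      (Multiplicative.ofAdd ((f (chr G₀) : ℕ) : ℝ))) ∈ (fun k : ℕ => (k : ℝ)) '' T) =
      (fun G : SimpleGraph (Fin n) => f (chr G) + f (chr G₀) ∈ T) := by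
    funext G
    apply propext
    rw [← h2]
    push_cast
    rfl
  rw [h3, h4] at h1
  exact h1

end Pool.Agent.D0H36.LW
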