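import Pool.Agent.D0H36.LW.Stm

/-!
# Laws of large characters, sixth part: connected planar graphs

* CONN: the share of the connected graphs is at least `1 / C`.  Let `N_k` be the number of the planar
  graphs on `Fin n` with `k` components.  (i) If `G` has `k + 1` components, then there are at least `n * k` ordered
  pairs `(x, y)` of vertices in different components (for each `x` one `y` in each other component).
  (ii) Then `G' = G ⊔ edge x y` is planar (`hCL.join` with `W` = the component of `x`, `ins G' W ≤ G`,
  `hCL.mono`), has `k` components (`a`, `b` are joined in `G'` iff they are joined in `G`, or one is joined in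
  `G` to `x` and the other one to `y`), and `(G, x, y) ↦ (G', x, y)` is injective.
  (iii) `G'` has at most `10 n` ordered pairs of adjacent vertices (degeneracy 5; (B1) of D0H22/BL/StP, or
  induction with `hCL.deg`).  So `k * N_{k+1} ≤ 10 * N_k`, `N_{k+1} ≤ 10^k / k! * N_1`, and
  `num Cl n ≤ exp 10 * N_1`.
* RC: replacing the content of a site keeps a graph connected.  `K` is connected by `TwoEdge`.  Let `Z` be the set
  of the vertices which are not joined to `r` (the end of the edge at the site) in `repl G W _ K`.  `Z` and `W` are
  disjoint, `x ∉ Z`, and there is no edge of `G` between `Z` and `Zᶜ`, as the edges of `G` not inside `W` are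
  edges of `repl G W _ K`.  So `Z` is empty.
-/

set_option autoImplicit false

namespace Pool.Agent.D0H36.LW

open Polynomial Pool.Agent.H207R2.BL Pool.Agent.D0H36.BL
open Pool.Agent.R814.BL (Cl)

/-- (CONN) -/
def S_CONN : Prop := ∃ C : ℕ, ∀ n : ℕ, 1 ≤ n → num Cl n ≤ C * cnt Cl n (fun G => G.Connected)

/-- (RC) -/
def S_RC : Prop := ∀ (h n : ℕ) (T : Set (SimpleGraph (Fin h))) (G : SimpleGraph (Fin n))
  (W : Finset (Fin n)) (hs : Site T G W) (K : SimpleGraph (Fin h)), TwoEdge K → 0 < h →
  G.Connected → (repl G W hs.card K).Connected

end Pool.Agent.D0H36.LW
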