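import Pool.Agent.D0H36.LW.Uni

/-!
# Consequences: numbers of roots, signs
-/

set_option autoImplicit false

namespace Pool.Agent.D0H36.LW

open Finset Polynomial Pool.Agent.H207R2.BL Pool.Agent.D0H36.BL
open Pool.Agent.R814.BL (Cl)

/-! ### disjoint unions -/

theorem chr_empty {V : Type} [Finite V] (hV : IsEmpty V) (G : SimpleGraph V) : chr G = 1 := by
  symm
  apply eq_chr
  intro k
  rw [eval_one]
  have h1 : Nat.card (G.Coloring (Fin k)) = 1 := by
    rw [Nat.card_eq_one_iff_unique]
    refine ⟨⟨fun a b => RelHom.ext (fun v => (hV.false v).elim)⟩, ⟨SimpleGraph.Coloring.mk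
      (fun v => (hV.false v).elim) (fun {v} => (hV.false v).elim)⟩⟩
  rw [h1]
  simp

theorem disjoint_union {V W : Type} [Finite V] [Finite W] (G : SimpleGraph V) (H : SimpleGraph W)
    (hG : Cl V G) (hH : Cl W H) :
    ∃ (U : Type) (_ : Finite U) (K : SimpleGraph U), Cl U K ∧ chr K = chr G * chr H := by
  rcases isEmpty_or_nonempty V with hV | ⟨⟨v⟩⟩
  · exact ⟨W, inferInstance, H, hH, by rw [chr_empty hV, one_mul]⟩
  rcases isEmpty_or_nonempty W with hW | ⟨⟨w⟩⟩
  · exact ⟨V, inferInstance, G, hG, by rw [chr_empty hW, mul_one]⟩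
  let fi : V ↪ V ⊕ W := ⟨Sum.inl, Sum.inl_injective⟩
  let fr : W ↪ V ⊕ W := ⟨Sum.inr, Sum.inr_injective⟩
  let K : SimpleGraph (V ⊕ W) := G.map fi ⊔ H.map fr
  have hll : ∀ a b, K.Adj (Sum.inl a) (Sum.inl b) ↔ G.Adj a b := by
    intro a b
    constructor
    · rintro (h | h)
      · obtain ⟨a', b', h1, h2, h3⟩ := (SimpleGraph.map_adj _ _ _ _).1 h
        cases Sum.inl_injective h2
        cases Sum.inl_injective h3
        exact h1
      · obtain ⟨a', b', h1, h2, h3⟩ := (SimpleGraph.map_adj _ _ _ _).1 h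
        exact absurd h2 (by simp [fr])
    · intro h
      exact Or.inl ((SimpleGraph.map_adj _ _ _ _).2 ⟨a, b, h, rfl, rfl⟩)
  have hrr : ∀ a b, K.Adj (Sum.inr a) (Sum.inr b) ↔ H.Adj a b := by
    intro a b
    constructor
    · rintro (h | h)
      · obtain ⟨a', b', h1, h2, h3⟩ := (SimpleGraph.map_adj _ _ _ _).1 h
        exact absurd h2 (by simp [fi])
      · obtain ⟨a', b', h1, h2, h3⟩ := (SimpleGraph.map_adj _ _ _ _).1 h
        cases Sum.inr_injective h2
        cases Sum.inr_injective h3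
        exact h1
    · intro h
      exact Or.inr ((SimpleGraph.map_adj _ _ _ _).2 ⟨a, b, h, rfl, rfl⟩)
  have hlr : ∀ a b, ¬ K.Adj (Sum.inl a) (Sum.inr b) := by
    rintro a b (h | h)
    · obtain ⟨a', b', h1, h2, h3⟩ := (SimpleGraph.map_adj _ _ _ _).1 h
      exact absurd h3 (by simp [fi])
    · obtain ⟨a', b', h1, h2, h3⟩ := (SimpleGraph.map_adj _ _ _ _).1 h
      exact absurd h2 (by simp [fr])
  let Z : Set (V ⊕ W) := Set.range Sum.inl
  have hno : ∀ a b, a ∈ Z → b ∉ Z → ¬ K.Adj a b := by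
    rintro (a | a) (b | b) ha hb
    · exact absurd ⟨b, rfl⟩ hb
    · exact hlr a b
    · obtain ⟨x, hx⟩ := ha
      exact absurd hx (by simp)
    · obtain ⟨x, hx⟩ := ha
      exact absurd hx (by simp)
  refine ⟨V ⊕ W, inferInstance, K, ?_, ?_⟩
  · refine hCL.join (V ⊕ W) K Z (Sum.inl v) (Sum.inr w) ⟨v, rfl⟩ (by
      rintro ⟨x, hx⟩
      exact absurd hx (by simp)) (fun a b ha hb hab => absurd hab (hno a b ha hb)) ?_ ?_
    · have e : ins K Z = G.map fi := by
        ext x y
        constructor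
        · rintro ⟨⟨a, rfl⟩, ⟨b, rfl⟩, hab⟩
          exact (SimpleGraph.map_adj _ _ _ _).2 ⟨a, b, (hll a b).1 hab, rfl, rfl⟩
        · intro h
          obtain ⟨a, b, h1, rfl, rfl⟩ := (SimpleGraph.map_adj _ _ _ _).1 h
          exact ⟨⟨a, rfl⟩, ⟨b, rfl⟩, (hll a b).2 h1⟩
      rw [e]
      exact hCL.ext _ _ fi G hG
    · have e : ins K Zᶜ = H.map fr := by
        ext x y
        constructor
        · rcases x with a | a
          · rintro ⟨hx, _, _⟩
            exact absurd ⟨a, rfl⟩ hx
          · rcases y with b | b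
            · rintro ⟨_, hy, _⟩
              exact absurd ⟨b, rfl⟩ hy
            · rintro ⟨_, _, hab⟩
              exact (SimpleGraph.map_adj _ _ _ _).2 ⟨a, b, (hrr a b).1 hab, rfl, rfl⟩
        · intro h
          obtain ⟨a, b, h1, rfl, rfl⟩ := (SimpleGraph.map_adj _ _ _ _).1 h
          refine ⟨?_, ?_, (hrr a b).2 h1⟩
          · rintro ⟨x, hx⟩
            exact absurd hx (by simp [fr])
          · rintro ⟨x, hx⟩
            exact absurd hx (by simp [fr])
      rw [e]
      exact hCL.ext _ _ fr H hH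
  · rw [(hPR (V ⊕ W) K Z).1 hno]
    have e1 : chr (K.induce Z) = chr G := by
      refine (chr_of_iso ?_).symm
      exact
        { toFun := fun a => ⟨Sum.inl a, ⟨a, rfl⟩⟩
          invFun := fun z => Sum.elim id (fun _ => v) z.1
          left_inv := fun a => rfl
          right_inv := by
            rintro ⟨z, a, rfl⟩
            rfl
          map_rel_iff' := by
            intro a b
            exact hll a b }
    have e2 : chr (K.induce Zᶜ) = chr H := by
      refine (chr_of_iso ?_).symm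
      exact
        { toFun := fun a => ⟨Sum.inr a, fun hx => by
            obtain ⟨x, hx⟩ := hx
            exact absurd hx (by simp)⟩
          invFun := fun z => Sum.elim (fun _ => w) id z.1
          left_inv := fun a => rfl
          right_inv := by
            rintro ⟨z, hz⟩
            rcases z with a | a
            · exact absurd ⟨a, rfl⟩ hz
            · rfl
          map_rel_iff' := by
            intro a b
            exact hrr a b }
    rw [e1, e2]

/-! ### numbers of roots -/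

/-- additive on the non-zero polynomials, `0` for `X` and `X - 1` -/
structure AddFun (f : ℝ[X] → ℕ) : Prop where
  mul : ∀ p q, p ≠ 0 → q ≠ 0 → f (p * q) = f p + f q
  x : f X = 0
  x1 : f (X - 1) = 0

theorem X_sub_two_ne : (X - 2 : ℝ[X]) ≠ 0 := by
  have : (X - 2 : ℝ[X]) = X - C 2 := by
    rw [show (C 2 : ℝ[X]) = 2 from rfl]
  rw [this]
  exact X_sub_C_ne_zero 2

theorem X_sub_one_ne : (X - 1 : ℝ[X]) ≠ 0 := by
  have : (X - 1 : ℝ[X]) = X - C 1 := by
    rw [C_1]
  rw [this]
  exact X_sub_C_ne_zero 1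

theorem isMul_of {M : Type} [CommGroup M] (φ : ℝ[X] → M)
    (h : ∀ p q, p ≠ 0 → q ≠ 0 → φ (p * q) = φ p * φ q) : IsMul φ := by
  refine ⟨nonZeroDivisors ℝ[X], ?_, ?_, ?_, ?_, ?_⟩
  · exact mem_nonZeroDivisors_of_ne_zero X_ne_zero
  · exact mem_nonZeroDivisors_of_ne_zero X_sub_one_ne
  · exact mem_nonZeroDivisors_of_ne_zero X_sub_two_ne
  · intro V _ G _
    exact mem_nonZeroDivisors_of_ne_zero (chr_ne_zero G)
  · intro p hp q hq
    exact h p q (nonZeroDivisors.ne_zero hp) (nonZeroDivisors.ne_zero hq)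

theorem AddFun.mod {f : ℝ[X] → ℕ} (hf : AddFun f) (m : ℕ) :
    IsMul (fun p => Multiplicative.ofAdd ((f p : ℕ) : ZMod m)) := by
  apply isMul_of
  intro p q hp hq
  rw [hf.mul p q hp hq, Nat.cast_add, ofAdd_add]

theorem AddFun.real {f : ℝ[X] → ℕ} (hf : AddFun f) :
    IsMul (fun p => Multiplicative.ofAdd ((f p : ℕ) : ℝ)) := by
  apply isMul_of
  intro p q hp hq
  rw [hf.mul p q hp hq, Nat.cast_add, ofAdd_add]

/-- the number of the roots is divisible by `d` for all planar graphs, and otherwise equidistributed -/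
theorem mod_law (hFG : S_FG) {f : ℝ[X] → ℕ} (hf : AddFun f) {m : ℕ} (hm : 1 ≤ m) :
    ∃ d : ℕ, d ∣ m ∧ (∀ (V : Type) [Finite V] (G : SimpleGraph V), Cl V G → d ∣ f (chr G)) ∧
      ∀ r : ℕ, d ∣ r → ∃ c : ℝ, 0 < c ∧ ∃ n₀ : ℕ, ∀ n : ℕ, n₀ ≤ n →
        |share Cl n (fun G => f (chr G) ≡ r [MOD m]) - (d : ℝ) / m| ≤ Real.exp (-(c * n)) := by
  classical
  have : NeZero m := ⟨by omega⟩
  set φ : ℝ[X] → Multiplicative (ZMod m) := fun p => Multiplicative.ofAdd ((f p : ℕ) : ZMod m) with hφ
  have hφm : IsMul φ := hf.mod m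
  have hFG' := hFG (Multiplicative (ZMod m)) φ hφm (by simp [hφ, hf.x]) (by simp [hφ, hf.x1])
  -- the subgroup
  have h0 : (0 : ZMod m) ∈ {a : ZMod m | Multiplicative.ofAdd a ∈ vals φ} := by
    refine ⟨Empty, inferInstance, ⊥, ?_, ?_⟩
    · exact cl_small (by simp) _
    · rw [chr_empty inferInstance]
      have h1 := hf.mul X 1 X_ne_zero one_ne_zero
      rw [mul_one] at h1
      have h2 : f 1 = 0 := by omega
      show Multiplicative.ofAdd ((f 1 : ℕ) : ZMod m) = _
      rw [h2, Nat.cast_zero]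
  have hadd : ∀ a b : ZMod m, Multiplicative.ofAdd a ∈ vals φ → Multiplicative.ofAdd b ∈ vals φ →
      Multiplicative.ofAdd (a + b) ∈ vals φ := by
    rintro a b ⟨V, hV, G, hG, e1⟩ ⟨W, hW, H, hH, e2⟩
    obtain ⟨U, hU, K, hK, e3⟩ := disjoint_union G H hG hH
    refine ⟨U, hU, K, hK, ?_⟩
    have e4 : φ (chr K) = φ (chr G) * φ (chr H) := by
      rw [e3]
      show Multiplicative.ofAdd ((f _ : ℕ) : ZMod m) = _
      rw [hf.mul _ _ (chr_ne_zero G) (chr_ne_zero H), Nat.cast_add, ofAdd_add]
    rw [e4, e1, e2, ofAdd_add]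
  have hnsmul : ∀ (k : ℕ) (a : ZMod m), Multiplicative.ofAdd a ∈ vals φ →
      Multiplicative.ofAdd (k • a) ∈ vals φ := by
    intro k a ha
    induction k with
    | zero =>
      rw [zero_smul]
      exact h0
    | succ k ih =>
      rw [succ_nsmul]
      exact hadd _ _ ih ha
  let H : AddSubgroup (ZMod m) :=
    { carrier := {a | Multiplicative.ofAdd a ∈ vals φ}
      zero_mem' := h0
      add_mem' := fun {a b} ha hb => hadd a b ha hb
      neg_mem' := by
        intro a ha
        have h1 : -a = (m - 1) • a := by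
          have h2 : (m - 1) • a + a = 0 := by
            rw [← succ_nsmul, Nat.sub_add_cancel hm]
            simp
          exact (eq_neg_of_add_eq_zero_left h2).symm
        rw [h1]
        exact hnsmul _ _ ha }
  have hH : ∀ a : ZMod m, a ∈ H ↔ Multiplicative.ofAdd a ∈ vals φ := fun a => Iff.rfl
  obtain ⟨d0, hd0⟩ := Int.subgroup_cyclic (H.comap (Int.castAddHom (ZMod m)))
  have hmem : ∀ a : ℤ, (a : ZMod m) ∈ H ↔ (d0 : ℤ) ∣ a := by
    intro a
    have h1 : a ∈ H.comap (Int.castAddHom (ZMod m)) ↔ (a : ZMod m) ∈ H := Iff.rfl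
    rw [← h1, hd0, AddSubgroup.mem_closure_singleton]
    constructor
    · rintro ⟨k, rfl⟩
      exact ⟨k, by simp [mul_comm]⟩
    · rintro ⟨k, rfl⟩
      exact ⟨k, by simp [mul_comm]⟩
  set d := d0.natAbs with hd
  have hmem' : ∀ a : ℕ, ((a : ℕ) : ZMod m) ∈ H ↔ d ∣ a := by
    intro a
    have h1 := hmem (a : ℤ)
    rw [Int.cast_natCast] at h1
    rw [h1, hd, Int.natAbs_dvd_natAbs.symm.trans (by rw [Int.natAbs_natCast])]
  have hdm : d ∣ m := by
    rw [← hmem' m, ZMod.natCast_self]
    exact H.zero_mem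
  refine ⟨d, hdm, ?_, ?_⟩
  · intro V _ G hG
    rw [← hmem', hH]
    exact ⟨V, inferInstance, G, hG, rfl⟩
  · -- the number of the values
    have hd0 : 0 < d := Nat.pos_of_dvd_of_pos hdm hm
    have hcard : (vals φ).ncard = m / d := by
      have h1 : vals φ = (fun j : ℕ => Multiplicative.ofAdd ((d * j : ℕ) : ZMod m)) ''
          (↑(range (m / d)) : Set ℕ) := by
        ext a
        constructor
        · intro ha
          have h2 : (Multiplicative.toAdd a) ∈ H := by
            rw [hH]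
            exact ha
          have h3 : (((Multiplicative.toAdd a).val : ℕ) : ZMod m) = Multiplicative.toAdd a :=
            ZMod.natCast_zmod_val _
          rw [← h3, hmem'] at h2
          obtain ⟨j, hj⟩ := h2
          refine ⟨j, ?_, ?_⟩
          · rw [Finset.coe_range, Set.mem_Iio]
            have h4 : (Multiplicative.toAdd a).val < m := ZMod.val_lt _
            rw [hj] at h4
            apply Nat.lt_of_mul_lt_mul_left (a := d)
            rw [Nat.mul_div_cancel' hdm]
            exact h4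
          · show Multiplicative.ofAdd ((d * j : ℕ) : ZMod m) = a
            rw [← hj, h3]
            rfl
        · rintro ⟨j, _, rfl⟩
          rw [← hH, hmem']
          exact Dvd.intro _ rfl
      have hinj : Set.InjOn (fun j : ℕ => Multiplicative.ofAdd ((d * j : ℕ) : ZMod m))
          (↑(range (m / d)) : Set ℕ) := by
        intro i hi j hj hij
        rw [Finset.coe_range, Set.mem_Iio] at hi hj
        have h2 : ((d * i : ℕ) : ZMod m) = ((d * j : ℕ) : ZMod m) := hij
        rw [ZMod.natCast_eq_natCast_iff'] at h2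
        have hlt : ∀ k, k < m / d → d * k < m := by
          intro k hk
          calc d * k < d * (m / d) := Nat.mul_lt_mul_of_pos_left hk hd0
            _ = m := Nat.mul_div_cancel' hdm
        rw [Nat.mod_eq_of_lt (hlt i hi), Nat.mod_eq_of_lt (hlt j hj)] at h2
        exact Nat.eq_of_mul_eq_mul_left hd0 h2
      rw [h1, hinj.ncard_image, Set.ncard_coe_finset, Finset.card_range]
    intro r hr
    have hrv : Multiplicative.ofAdd ((r : ℕ) : ZMod m) ∈ vals φ := by
      rw [← hH, hmem']
      exact hr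
    obtain ⟨c, hc, n₀, H1⟩ := hFG' _ hrv
    refine ⟨c, hc, n₀, fun n hn => ?_⟩
    have h2 := H1 n hn
    have h3 : (1 : ℝ) / ((vals φ).ncard : ℝ) = (d : ℝ) / m := by
      rw [hcard, Nat.cast_div hdm (by exact_mod_cast hd0.ne')]
      rw [one_div_div]
    rw [h3] at h2
    have h4 : (fun G : SimpleGraph (Fin n) => φ (chr G) = Multiplicative.ofAdd ((r : ℕ) : ZMod m)) =
        (fun G : SimpleGraph (Fin n) => f (chr G) ≡ r [MOD m]) := by
      funext G
      apply propext
      rw [← ZMod.natCast_eq_natCast_iff]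
      exact Multiplicative.ofAdd.injective.eq_iff
    rw [h4] at h2
    exact h2

theorem triv_zero (hTR : S_TRIV) {M : Type} [CommGroup M] {φ : ℝ[X] → M} (hφ : IsMul φ) (h : Triv φ)
    (hx : φ X = 1) (hx1 : φ (X - 1) = 1) (V : Type) [Finite V] (G : SimpleGraph V) (hG : Cl V G) :
    φ (chr G) = 1 := by
  obtain ⟨c, d, _, _, _, h1⟩ := hTR M φ hφ h V G hG
  rw [h1, hx, hx1, one_pow, one_pow, one_mul]

/-- no number of roots has a large share -/
theorem spread_law (hTR : S_TRIV) (hSP : S_SPR) {f : ℝ[X] → ℕ} (hf : AddFun f)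
    (hex : ∃ (V : Type) (_ : Finite V) (G : SimpleGraph V), Cl V G ∧ f (chr G) ≠ 0) :
    ∃ C : ℝ, ∀ n : ℕ, 1 ≤ n → ∀ k : ℕ, share Cl n (fun G => f (chr G) = k) ≤ C / Real.sqrt n := by
  have hm := hf.real
  have hnt : ¬ Triv (fun p => Multiplicative.ofAdd ((f p : ℕ) : ℝ)) := by
    intro ht
    obtain ⟨V, hV, G, hG, h1⟩ := hex
    have h2 := triv_zero hTR hm ht (by simp [hf.x]) (by simp [hf.x1]) V G hG
    apply h1
    have h3 : ((f (chr G) : ℕ) : ℝ) = 0 := h2
    exact_mod_cast h3
  obtain ⟨δ, hδ, C, H⟩ := hSP _ hm hnt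
  refine ⟨C, fun n hn k => le_trans (share_mono ?_) (H n hn k)⟩
  intro G _ hG
  show (k : ℝ) ≤ ((f (chr G) : ℕ) : ℝ) ∧ ((f (chr G) : ℕ) : ℝ) < k + δ
  rw [hG]
  exact ⟨le_rfl, by linarith⟩

/-- the number of the complex roots in `R` -/
noncomputable def cRoots (R : Set ℂ) (p : ℝ[X]) : ℕ := by
  classical
  exact ((p.map (algebraMap ℝ ℂ)).roots.filter (fun z => z ∈ R)).card

theorem cRoots_add {R : Set ℂ} (h0 : (0 : ℂ) ∉ R) (h1 : (1 : ℂ) ∉ R) : AddFun (cRoots R) where
  mul := by
    classical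
    intro p q hp hq
    unfold cRoots
    rw [Polynomial.map_mul, roots_mul, Multiset.filter_add, Multiset.card_add]
    exact mul_ne_zero (by simpa using hp) (by simpa using hq)
  x := by
    classical
    unfold cRoots
    rw [Polynomial.map_X, roots_X, Multiset.card_eq_zero, Multiset.filter_eq_nil]
    intro z hz hzR
    rw [Multiset.mem_singleton] at hz
    exact h0 (hz ▸ hzR)
  x1 := by
    classical
    unfold cRoots
    have e : (X - 1 : ℝ[X]).map (algebraMap ℝ ℂ) = X - C 1 := by simp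
    rw [e, roots_X_sub_C, Multiset.card_eq_zero, Multiset.filter_eq_nil]
    intro z hz hzR
    rw [Multiset.mem_singleton] at hz
    exact h1 (hz ▸ hzR)

/-- the number of the real roots `≥ 4` -/
theorem rRoots_add : AddFun (fun p : ℝ[X] => (p.roots.filter (fun x => 4 ≤ x)).card) where
  mul := by
    intro p q hp hq
    rw [roots_mul (mul_ne_zero hp hq), Multiset.filter_add, Multiset.card_add]
  x := by
    rw [roots_X, Multiset.card_eq_zero, Multiset.filter_eq_nil]
    intro z hz hzR
    rw [Multiset.mem_singleton] at hz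
    rw [hz] at hzR
    norm_num at hzR
  x1 := by
    have e : (X - 1 : ℝ[X]) = X - C 1 := by simp
    rw [e, roots_X_sub_C, Multiset.card_eq_zero, Multiset.filter_eq_nil]
    intro z hz hzR
    rw [Multiset.mem_singleton] at hz
    rw [hz] at hzR
    norm_num at hzR

end Pool.Agent.D0H36.LW
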