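import Pool.Agent.D0H36.LW.Stm

/-!
# Laws of large characters, second part: the size of the values

* SIZE.  `K_{2,m}` (the book graph on `Fin (m + 2)` without the edge of its spine, `m ≥ 2`) is planar (subgraph of
  the book graph), `TwoEdge`, and `P(K_{2,m}) = X (X - 1)^m + X (X - 1) (X - 2)^m` (colourings in which the
  two vertices have the same colour, or different colours); `P(book (m + 2)) = X (X - 1) (X - 2)^m`
  (BOW).  For `q > 2` let `b = (q - 1) / (q - 2) > 1`.  The quotient of the values at `q` is
  `r m = 1 + b ^ m / (q - 1)`.  If `exp (i t log |P(A,q)|)` is the same for all `TwoEdge` planar graphs with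
  the same number of vertices, then `t log (r m)` is in `2 π ℤ`, so `log (r (m+1)) - log (r m)` is in the
  discrete set `(2 π / t) ℤ`; but it is strictly increasing in `m` with the limit `log b`, contradiction.
-/

set_option autoImplicit false

namespace Pool.Agent.D0H36.LW

open Polynomial Pool.Agent.H207R2.BL Pool.Agent.D0H36.BL
open Pool.Agent.R814.BL (Cl)

/-- (SIZE) -/
def S_SIZE : Prop := ∀ q : ℝ, 2 < q → ∀ t : ℝ, t ≠ 0 →
  ¬ Triv (fun p : ℝ[X] => Circle.exp (t * Real.log |p.eval q|))

end Pool.Agent.D0H36.LW
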