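import Pool.Agent.D0H36.LW.Stm

/-!
# Laws of large characters, fourth part: arguments and sizes at complex points

* ARG.  `z` not real, `Re z ≠ 3/2`, no root of a planar graph, `b = (z - 1) / (z - 2)`, which is not real, and
  `‖b‖ ≠ 1`.  Let `χ w = exp (i (k arg w + t log ‖w‖))`, a character of the non-zero complex numbers.
  As in SIZE (`K_{2,m}` against the book graph on `Fin (m + 2)`): if `Triv`, then `χ (1 + b^m / (z - 1)) = 1`
  for all `m ≥ 2`.
  - If `‖b‖ < 1` let `e m = b^m / (z - 1)`; so `χ (1 + e m) = 1` for all `m`.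
  - If `‖b‖ > 1` then `χ b ^ m * (χ (z - 1))⁻¹ * χ (1 + e m) = 1` with `e m = (z - 1) * (1/b)^m → 0`; dividing
    the relations for `m + 1` and `m` and letting `m → ∞` gives `χ b = 1`, then `χ (z - 1) = 1` by a limit
    again, and so `χ (1 + e m) = 1` for all `m ≥ 2`.
  In both cases `e (m+1) = β * e m` with `‖β‖ < 1`, `β = b` or `1 / b` not real.  With
  `L m = log (1 + e m)`, `k * Im (L m) + t * Re (L m) = Re ((t - k i) L m)` is in `2 π ℤ` and tends to `0`, so it
  is `0` for large `m`: `u m = (t - k i) * L m` is purely imaginary and not `0`, so `u (m+1) / u m` is real.  Its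
  limit is `β` (as `log (1 + e) / e → 1`), so `β` is real, contradiction.
-/

set_option autoImplicit false

namespace Pool.Agent.D0H36.LW

open Polynomial Pool.Agent.H207R2.BL Pool.Agent.D0H36.BL
open Pool.Agent.R814.BL (Cl)

/-- `(w / |w|)^k |w|^(i t)` -/
noncomputable def phase (k : ℤ) (t : ℝ) (w : ℂ) : Circle := Circle.exp (k * w.arg + t * Real.log ‖w‖)

/-- (ARG) -/
def S_ARG : Prop := ∀ z : ℂ, z.im ≠ 0 → z.re ≠ 3 / 2 →
  (∀ (V : Type) [Finite V] (G : SimpleGraph V), Cl V G → aeval z (chr G) ≠ 0) →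
  ∀ (k : ℤ) (t : ℝ), (k ≠ 0 ∨ t ≠ 0) → ¬ Triv (fun p : ℝ[X] => phase k t (aeval z p))

/-- (PH) the phase is multiplicative (15 min) -/
def S_PH : Prop := ∀ (k : ℤ) (t : ℝ) (v w : ℂ), v ≠ 0 → w ≠ 0 → phase k t (v * w) = phase k t v * phase k t w

end Pool.Agent.D0H36.LW
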