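import Pool.Agent.D0H36.LW.Cor
import Pool.Agent.D0H36.LW.Stm2
import Pool.Agent.D0H36.LW.Stm4

/-!
# Consequences: signs, sizes, arguments
-/

set_option autoImplicit false

namespace Pool.Agent.D0H36.LW

open Finset Polynomial Pool.Agent.H207R2.BL Pool.Agent.D0H36.BL
open Pool.Agent.R814.BL (Cl)

open Classical in
/-- the points at which the chromatic polynomial is negative -/
noncomputable def neg (Q : Finset ℝ) (p : ℝ[X]) : Finset ℝ := Q.filter (fun q => p.eval q < 0)

/-- the patterns of signs -/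
def Pat (Q : Finset ℝ) : Set (Finset ℝ) :=
  {T | ∃ (V : Type) (_ : Finite V) (G : SimpleGraph V), Cl V G ∧ neg Q (chr G) = T}

theorem aeval_two (z : ℂ) : aeval z (2 : ℝ[X]) = 2 := by
  have h : (2 : ℝ[X]) = C 2 := rfl
  rw [h, aeval_C]
  simp

theorem tri_ne (hBW : S_BOW) {z : ℂ} (hz : ∀ (V : Type) [Finite V] (G : SimpleGraph V), Cl V G →
    aeval z (chr G) ≠ 0) : z ≠ 0 ∧ z ≠ 1 ∧ z ≠ 2 := by
  have h1 := hz (Fin 3) (book 3) (hBK 3 le_rfl).1
  rw [hBW.2 3 (by norm_num)] at h1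
  simp only [map_mul, aeval_X, map_sub, map_one, map_pow] at h1
  rw [aeval_two] at h1
  refine ⟨?_, ?_, ?_⟩
  · rintro rfl
    simp at h1
  · rintro rfl
    simp at h1
  · rintro rfl
    simp at h1

theorem aeval_real (q : ℝ) (p : ℝ[X]) : aeval (q : ℂ) p = ((p.eval q : ℝ) : ℂ) := by
  rw [← Complex.coe_algebraMap, aeval_algebraMap_apply]
  simp

/-- the law of the signs -/
theorem sign_law (hBW : S_BOW) (hFG : S_FG) (Q : Finset ℝ)
    (hQ : ∀ q ∈ Q, 1 < q ∧ ∀ (V : Type) [Finite V] (G : SimpleGraph V), Cl V G → (chr G).eval q ≠ 0)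
    (T : Finset ℝ) (hT : T ∈ Pat Q) :
    ∃ c : ℝ, 0 < c ∧ ∃ n₀ : ℕ, ∀ n : ℕ, n₀ ≤ n →
      |share Cl n (fun G => neg Q (chr G) = T) - 1 / ((Pat Q).ncard : ℝ)| ≤ Real.exp (-(c * n)) := by
  classical
  let φ : ℝ[X] → ({x // x ∈ Q} → ℤˣ) := fun p q => if p.eval q.1 < 0 then -1 else 1
  let ψ : Finset ℝ → ({x // x ∈ Q} → ℤˣ) := fun T q => if q.1 ∈ T then -1 else 1
  have hψ : ∀ p, ψ (neg Q p) = φ p := by
    intro p
    funext q
    show (if q.1 ∈ neg Q p then (-1 : ℤˣ) else 1) = if p.eval q.1 < 0 then -1 else 1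
    have : q.1 ∈ neg Q p ↔ p.eval q.1 < 0 := by
      unfold neg
      rw [Finset.mem_filter]
      exact ⟨fun h => h.2, fun h => ⟨q.2, h⟩⟩
    simp only [this]
  have hinj : ∀ T T' : Finset ℝ, T ⊆ Q → T' ⊆ Q → ψ T = ψ T' → T = T' := by
    intro T T' hT hT' h
    have h1 : ∀ q (hq : q ∈ Q), q ∈ T ↔ q ∈ T' := by
      intro q hq
      have h2 : (if q ∈ T then (-1 : ℤˣ) else 1) = if q ∈ T' then (-1 : ℤˣ) else 1 :=
        congrFun h ⟨q, hq⟩
      by_cases h3 : q ∈ T <;> by_cases h4 : q ∈ T'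
      · exact ⟨fun _ => h4, fun _ => h3⟩
      · rw [if_pos h3, if_neg h4] at h2
        exact absurd h2 (by decide)
      · rw [if_neg h3, if_pos h4] at h2
        exact absurd h2 (by decide)
      · exact ⟨fun h => absurd h h3, fun h => absurd h h4⟩
    ext q
    exact ⟨fun h5 => (h1 q (hT h5)).1 h5, fun h5 => (h1 q (hT' h5)).2 h5⟩
  have hsub : ∀ p, neg Q p ⊆ Q := fun p => Finset.filter_subset _ _
  have hφ : IsMul φ := by
    refine ⟨{ carrier := {p | ∀ q ∈ Q, p.eval q ≠ 0}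
              one_mem' := fun q _ => by simp
              mul_mem' := fun {a b} ha hb q hq => by
                rw [eval_mul]
                exact mul_ne_zero (ha q hq) (hb q hq) }, ?_, ?_, ?_, ?_, ?_⟩
    · intro q hq
      rw [eval_X]
      have := (hQ q hq).1
      linarith
    · intro q hq
      rw [eval_sub, eval_X, eval_one]
      have := (hQ q hq).1
      intro h
      linarith
    · intro q hq
      rw [eval_sub, eval_X, eval_ofNat]
      intro h
      have h1 := (hQ q hq).2 (Fin 3) (book 3) (hBK 3 le_rfl).1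
      rw [hBW.2 3 (by norm_num)] at h1
      apply h1
      simp only [eval_mul, eval_pow, eval_sub, eval_X, eval_ofNat, h]
      norm_num
    · intro V _ G hG q hq
      exact (hQ q hq).2 V G hG
    · intro p hp r hr
      funext q
      have h1 : p.eval q.1 ≠ 0 := hp q.1 q.2
      have h2 : r.eval q.1 ≠ 0 := hr q.1 q.2
      show (if (p * r).eval q.1 < 0 then (-1 : ℤˣ) else 1) =
        (if p.eval q.1 < 0 then -1 else 1) * (if r.eval q.1 < 0 then -1 else 1)
      rw [eval_mul]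
      rcases lt_or_gt_of_ne h1 with h3 | h3 <;> rcases lt_or_gt_of_ne h2 with h4 | h4
      · rw [if_neg (not_lt.2 (mul_pos_of_neg_of_neg h3 h4).le), if_pos h3, if_pos h4]
        decide
      · rw [if_pos (mul_neg_of_neg_of_pos h3 h4), if_pos h3, if_neg (not_lt.2 h4.le)]
        decide
      · rw [if_pos (mul_neg_of_pos_of_neg h3 h4), if_neg (not_lt.2 h3.le), if_pos h4]
        decide
      · rw [if_neg (not_lt.2 (mul_pos h3 h4).le), if_neg (not_lt.2 h3.le), if_neg (not_lt.2 h4.le)]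
        decide
  have hx : φ X = 1 := by
    funext q
    show (if (X : ℝ[X]).eval q.1 < 0 then (-1 : ℤˣ) else 1) = 1
    rw [eval_X, if_neg]
    have := (hQ q.1 q.2).1
    linarith
  have hx1 : φ (X - 1) = 1 := by
    funext q
    show (if (X - 1 : ℝ[X]).eval q.1 < 0 then (-1 : ℤˣ) else 1) = 1
    rw [eval_sub, eval_X, eval_one, if_neg]
    have := (hQ q.1 q.2).1
    linarith
  have hv : vals φ = ψ '' Pat Q := by
    ext a
    constructor
    · rintro ⟨V, hV, G, hG, h1⟩
      exact ⟨neg Q (chr G), ⟨V, hV, G, hG, rfl⟩, by rw [hψ, h1]⟩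
    · rintro ⟨T, ⟨V, hV, G, hG, h1⟩, rfl⟩
      exact ⟨V, hV, G, hG, by rw [← h1, hψ]⟩
  have hPQ : ∀ T ∈ Pat Q, T ⊆ Q := by
    rintro T ⟨V, hV, G, hG, rfl⟩
    exact hsub _
  have hcard : (vals φ).ncard = (Pat Q).ncard := by
    rw [hv]
    exact Set.InjOn.ncard_image (fun T hT T' hT' h => hinj T T' (hPQ T hT) (hPQ T' hT') h)
  have hTv : ψ T ∈ vals φ := by
    rw [hv]
    exact ⟨T, hT, rfl⟩
  obtain ⟨c, hc, n₀, H⟩ := hFG _ φ hφ hx hx1 (ψ T) hTv
  refine ⟨c, hc, n₀, fun n hn => ?_⟩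
  have h1 := H n hn
  rw [hcard] at h1
  have h2 : (fun G : SimpleGraph (Fin n) => φ (chr G) = ψ T) =
      (fun G : SimpleGraph (Fin n) => neg Q (chr G) = T) := by
    funext G
    apply propext
    rw [← hψ]
    exact ⟨fun h => hinj _ _ (hsub _) (hPQ T hT) h, fun h => by rw [h]⟩
  rw [h2] at h1
  exact h1

/-! ### sizes and arguments -/

theorem phase_isMul (hBW : S_BOW) (hPH : S_PH) {z : ℂ}
    (hz : ∀ (V : Type) [Finite V] (G : SimpleGraph V), Cl V G → aeval z (chr G) ≠ 0) (k : ℤ) (t : ℝ) :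
    IsMul (fun p : ℝ[X] => phase k t (aeval z p)) := by
  obtain ⟨h0, h1, h2⟩ := tri_ne hBW hz
  refine ⟨{ carrier := {p | aeval z p ≠ 0}
            one_mem' := by simp
            mul_mem' := fun {a b} ha hb => by
              show aeval z (a * b) ≠ 0
              rw [map_mul]
              exact mul_ne_zero ha hb }, ?_, ?_, ?_, ?_, ?_⟩
  · show aeval z (X : ℝ[X]) ≠ 0
    rw [aeval_X]
    exact h0
  · show aeval z (X - 1 : ℝ[X]) ≠ 0
    rw [map_sub, aeval_X, map_one]
    exact sub_ne_zero.2 h1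
  · show aeval z (X - 2 : ℝ[X]) ≠ 0
    rw [map_sub, aeval_X, aeval_two]
    exact sub_ne_zero.2 h2
  · intro V _ G hG
    exact hz V G hG
  · intro p hp q hq
    show phase k t (aeval z (p * q)) = _
    rw [map_mul]
    exact hPH k t _ _ hp hq

theorem circle_exp_two_pi_mul (N : ℤ) : Circle.exp (N * (2 * Real.pi)) = 1 := by
  rw [Circle.exp_eq_one]
  exact ⟨N, rfl⟩

theorem phase_sq_real (k : ℤ) (t x : ℝ) :
    phase k t (x : ℂ) * phase k t (x : ℂ) = Circle.exp (2 * t * Real.log |x|) := by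
  unfold phase
  rw [← Circle.exp_add, Complex.norm_real, Real.norm_eq_abs]
  have h1 : ∃ N : ℤ, 2 * (k : ℝ) * (x : ℂ).arg = N * (2 * Real.pi) := by
    rcases le_or_gt 0 x with h | h
    · exact ⟨0, by rw [Complex.arg_ofReal_of_nonneg h]; simp⟩
    · exact ⟨k, by rw [Complex.arg_ofReal_of_neg h]; ring⟩
  obtain ⟨N, hN⟩ := h1
  have h2 : (k : ℝ) * (x : ℂ).arg + t * Real.log |x| + ((k : ℝ) * (x : ℂ).arg + t * Real.log |x|) =
      N * (2 * Real.pi) + 2 * t * Real.log |x| := by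
    rw [← hN]
    ring
  rw [h2, Circle.exp_add, circle_exp_two_pi_mul, one_mul]

theorem phase_real_nt (hSZ : S_SIZE) {q : ℝ} (hq : 2 < q) (k : ℤ) {t : ℝ} (ht : t ≠ 0) :
    ¬ Triv (fun p : ℝ[X] => phase k t (aeval (q : ℂ) p)) := by
  intro h
  apply hSZ q hq (2 * t) (mul_ne_zero two_ne_zero ht)
  intro m A B hA hB hA2 hB2
  have h1 : phase k t (aeval (q : ℂ) (chr A)) = phase k t (aeval (q : ℂ) (chr B)) :=
    h m A B hA hB hA2 hB2
  rw [aeval_real, aeval_real] at h1
  show Circle.exp (2 * t * Real.log |(chr A).eval q|) = Circle.exp (2 * t * Real.log |(chr B).eval q|)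
  rw [← phase_sq_real k, ← phase_sq_real k, h1]

/-- the logarithm of the size is not concentrated -/
theorem log_spread (hBW : S_BOW) (hSP : S_SPR) {z : ℂ}
    (hz : ∀ (V : Type) [Finite V] (G : SimpleGraph V), Cl V G → aeval z (chr G) ≠ 0)
    (hnt : ¬ Triv (fun p : ℝ[X] => phase 0 1 (aeval z p))) :
    ∃ C : ℝ, ∀ n : ℕ, 1 ≤ n → ∀ x : ℝ,
      share Cl n (fun G => x ≤ Real.log ‖aeval z (chr G)‖ ∧ Real.log ‖aeval z (chr G)‖ < x + 1) ≤
        C / Real.sqrt n := by
  obtain ⟨h0, h1, h2⟩ := tri_ne hBW hz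
  have hm : IsMul (fun p : ℝ[X] => Multiplicative.ofAdd (Real.log ‖aeval z p‖)) := by
    refine ⟨{ carrier := {p | aeval z p ≠ 0}
              one_mem' := by simp
              mul_mem' := fun {a b} ha hb => by
                show aeval z (a * b) ≠ 0
                rw [map_mul]
                exact mul_ne_zero ha hb }, ?_, ?_, ?_, ?_, ?_⟩
    · show aeval z (X : ℝ[X]) ≠ 0
      rw [aeval_X]
      exact h0
    · show aeval z (X - 1 : ℝ[X]) ≠ 0
      rw [map_sub, aeval_X, map_one]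
      exact sub_ne_zero.2 h1
    · show aeval z (X - 2 : ℝ[X]) ≠ 0
      rw [map_sub, aeval_X, aeval_two]
      exact sub_ne_zero.2 h2
    · intro V _ G hG
      exact hz V G hG
    · intro p hp q hq
      show Multiplicative.ofAdd (Real.log ‖aeval z (p * q)‖) = _
      have hp' : aeval z p ≠ 0 := hp
      have hq' : aeval z q ≠ 0 := hq
      rw [map_mul, norm_mul, Real.log_mul (norm_ne_zero_iff.2 hp') (norm_ne_zero_iff.2 hq'), ofAdd_add]
  have hnt' : ¬ Triv (fun p : ℝ[X] => Multiplicative.ofAdd (Real.log ‖aeval z p‖)) := by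
    intro h
    apply hnt
    intro m A B hA hB hA2 hB2
    have h4 : Real.log ‖aeval z (chr A)‖ = Real.log ‖aeval z (chr B)‖ := h m A B hA hB hA2 hB2
    show phase 0 1 (aeval z (chr A)) = phase 0 1 (aeval z (chr B))
    unfold phase
    rw [h4, Int.cast_zero, zero_mul, zero_mul]
  obtain ⟨δ, hδ, C, H⟩ := hSP _ hm hnt'
  let L : ∀ {n : ℕ}, SimpleGraph (Fin n) → ℝ := fun {n} G => Real.log ‖aeval z (chr G)‖
  have key : ∀ (K : ℕ) (n : ℕ), 1 ≤ n → ∀ x : ℝ,
      share Cl n (fun G => x ≤ L G ∧ L G < x + K * δ) ≤ K * C / Real.sqrt n := by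
    intro K
    induction K with
    | zero =>
      intro n hn x
      have h5 : share Cl n (fun G => x ≤ L G ∧ L G < x + ((0 : ℕ) : ℝ) * δ) = 0 := by
        unfold share
        have h6 : cnt Cl n (fun G => x ≤ L G ∧ L G < x + ((0 : ℕ) : ℝ) * δ) = 0 := by
          classical
          rw [cnt_eq, Finset.card_eq_zero, Finset.filter_eq_empty_iff]
          rintro G _ ⟨_, h7, h8⟩
          rw [Nat.cast_zero, zero_mul, add_zero] at h8
          linarith
        rw [h6]
        simp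
      rw [h5]
      simp
    | succ K ih =>
      intro n hn x
      have h6 : share Cl n (fun G => x ≤ L G ∧ L G < x + ((K + 1 : ℕ) : ℝ) * δ) ≤
          share Cl n (fun G => x ≤ L G ∧ L G < x + K * δ) +
            share Cl n (fun G => x + K * δ ≤ L G ∧ L G < x + K * δ + δ) := by
        unfold share
        rw [← add_div]
        apply div_le_div_of_nonneg_right _ (by positivity)
        have h7 := cnt_le_add (𝒞 := Cl) (n := n) (p := fun G => x ≤ L G ∧ L G < x + ((K + 1 : ℕ) : ℝ) * δ)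
          (p' := fun G => x ≤ L G ∧ L G < x + K * δ)
          (p'' := fun G => x + K * δ ≤ L G ∧ L G < x + K * δ + δ) (by
            rintro G _ ⟨h8, h9⟩
            rcases lt_or_ge (L G) (x + K * δ) with h10 | h10
            · exact Or.inl ⟨h8, h10⟩
            · refine Or.inr ⟨h10, ?_⟩
              push_cast at h9
              linarith)
        exact_mod_cast h7
      have h7 := ih n hn x
      have h8 : share Cl n (fun G => x + K * δ ≤ L G ∧ L G < x + K * δ + δ) ≤ C / Real.sqrt n :=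
        H n hn (x + K * δ)
      calc _ ≤ K * C / Real.sqrt n + C / Real.sqrt n := h6.trans (add_le_add h7 h8)
        _ = ((K + 1 : ℕ) : ℝ) * C / Real.sqrt n := by
            push_cast
            ring
  obtain ⟨K, hK⟩ := exists_nat_gt (1 / δ)
  refine ⟨K * C, fun n hn x => le_trans (share_mono ?_) (key K n hn x)⟩
  rintro G _ ⟨h5, h6⟩
  refine ⟨h5, ?_⟩
  rw [div_lt_iff₀ hδ] at hK
  linarith

end Pool.Agent.D0H36.LW
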