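import Pool.Agent.D0H36.LW.Stm5
import Pool.Agent.D0H36.LW.Stm4

/-!
# (LIN) and (PH)
-/

set_option autoImplicit false

namespace Pool.Agent.D0H36.LW

open Polynomial Pool.Agent.H207R2.BL Pool.Agent.D0H36.BL
open Pool.Agent.R814.BL (Cl)

theorem lin_sets {f : ℝ[X] → ℕ} (hf : AddFun f) :
    ∀ (s : ℕ) (V : Type) [Finite V] (G : SimpleGraph V)
      (W : Fin s → Set V), (∀ i j, i ≠ j → Disjoint (W i) (W j)) →
      (∀ i a b c d, a ∈ W i → b ∉ W i → c ∈ W i → d ∉ W i → G.Adj a b → G.Adj c d → a = c ∧ b = d) →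
      (∀ i, 1 ≤ f (chr (G.induce (W i)))) → s ≤ f (chr G) := by
  intro s
  induction s with
  | zero =>
    intro V _ G W _ _ _
    exact Nat.zero_le _
  | succ s ih =>
    intro V _ G W hd he hz
    set U := W (Fin.last s) with hU
    have hsub : ∀ i : Fin s, W i.castSucc ⊆ Uᶜ := by
      intro i z hz hzU
      exact Set.disjoint_left.1 (hd i.castSucc (Fin.last s) (Fin.castSucc_lt_last i).ne) hz hzU
    have h1 : s ≤ f (chr (G.induce Uᶜ)) := by
      refine ih (↥(Uᶜ : Set V)) (G.induce Uᶜ)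
        (fun i => {z : ↥(Uᶜ : Set V) | z.1 ∈ W i.castSucc}) ?_ ?_ ?_
      · intro i j hij
        rw [Set.disjoint_left]
        intro z hz hz'
        exact Set.disjoint_left.1 (hd i.castSucc j.castSucc
          (fun h => hij (Fin.castSucc_injective s h))) hz hz'
      · intro i a b c d ha hb hc hd hab hcd
        have h2 := he i.castSucc a.1 b.1 c.1 d.1 ha hb hc hd hab hcd
        exact ⟨Subtype.ext h2.1, Subtype.ext h2.2⟩
      · intro i
        rw [chr_of_iso (indIso G Uᶜ (W i.castSucc) (hsub i))]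
        exact hz i.castSucc
    have h2 : 1 ≤ f (chr (G.induce U)) := hz (Fin.last s)
    have h3 : s + 1 ≤ f (chr (G.induce U) * chr (G.induce Uᶜ)) := by
      rw [hf.mul _ _ (chr_ne_zero _) (chr_ne_zero _)]
      omega
    by_cases hx : ∃ r x, r ∈ U ∧ x ∉ U ∧ G.Adj r x
    · obtain ⟨r, x, hr, hx, hrx⟩ := hx
      have h4 := (hPR V G U).2 r x hr hx (fun a b ha hb =>
        ⟨fun hab => he (Fin.last s) a b r x ha hb hr hx hab hrx, fun h => by
          rw [h.1, h.2]
          exact hrx⟩)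
      have h5 := congrArg f h4
      rw [hf.mul _ _ X_ne_zero (chr_ne_zero _), hf.mul _ _ X_sub_one_ne
        (mul_ne_zero (chr_ne_zero _) (chr_ne_zero _)), hf.x, hf.x1, zero_add, zero_add] at h5
      rw [h5]
      exact h3
    · push Not at hx
      have h4 := (hPR V G U).1 (fun a b ha hb => hx a b ha hb)
      rw [h4]
      exact h3

theorem lin_sites {f : ℝ[X] → ℕ} (hf : AddFun f) {h n : ℕ} {B : SimpleGraph (Fin h)} (hB2 : TwoEdge B)
    (hB : 1 ≤ f (chr B)) (G : SimpleGraph (Fin n)) :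
    {W | Site {B} G W}.ncard ≤ f (chr G) := by
  classical
  have hT : ∀ A ∈ ({B} : Set (SimpleGraph (Fin h))), TwoEdge A := by
    rintro A rfl
    exact hB2
  set S : Set (Finset (Fin n)) := {W | Site {B} G W} with hS
  have hfin : Finite S := Set.toFinite _
  let e : S ≃ Fin S.ncard := Finite.equivFinOfCardEq rfl
  refine lin_sets hf S.ncard (Fin n) G (fun i => ((e.symm i).1 : Set (Fin n))) ?_ ?_ ?_
  · intro i j hij
    rw [Finset.disjoint_coe]
    exact (e.symm i).2.disjoint hT (e.symm j).2 (fun h => hij (e.symm.injective (Subtype.ext h)))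
  · intro i a b c d ha hb hc hd hab hcd
    obtain ⟨r, x, _, _, hrx⟩ := (e.symm i).2.one
    have h1 := (hrx a b ha hb).1 hab
    have h2 := (hrx c d hc hd).1 hcd
    exact ⟨h1.1.trans h2.1.symm, h1.2.trans h2.2.symm⟩
  · intro i
    rw [← chr_of_iso (lookIso G (e.symm i).2.card)]
    have h1 : G.comap ((e.symm i).1.orderEmbOfFin (e.symm i).2.card) = B := (e.symm i).2.look
    rw [h1]
    exact hB

theorem t_LIN (hTR : S_TRIV) : S_LIN := by
  intro f hf hex
  -- a two-edge-connected graph with a positive value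
  have hB : ∃ (h : ℕ) (B : SimpleGraph (Fin h)), Cl (Fin h) B ∧ TwoEdge B ∧ 1 ≤ f (chr B) := by
    by_contra hcon
    push Not at hcon
    have hz : ∀ (h : ℕ) (B : SimpleGraph (Fin h)), Cl (Fin h) B → TwoEdge B → f (chr B) = 0 := by
      intro h B h1 h2
      have := hcon h B h1 h2
      omega
    have ht : Triv (fun p => Multiplicative.ofAdd ((f p : ℕ) : ℝ)) := by
      intro h A B hA hB hA2 hB2
      show Multiplicative.ofAdd ((f (chr A) : ℕ) : ℝ) = Multiplicative.ofAdd ((f (chr B) : ℕ) : ℝ)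
      rw [hz h A hA hA2, hz h B hB hB2]
    obtain ⟨V, hV, G, hG, h1⟩ := hex
    have h2 := triv_zero hTR hf.real ht (by simp [hf.x]) (by simp [hf.x1]) V G hG
    apply h1
    have h3 : ((f (chr G) : ℕ) : ℝ) = 0 := h2
    exact_mod_cast h3
  obtain ⟨h, B, hB, hB2, hB1⟩ := hB
  have hh : 0 < h := by
    rcases Nat.eq_zero_or_pos h with rfl | h0
    · have h1 : chr B = 1 := chr_empty inferInstance B
      have h2 := hf.mul X 1 X_ne_zero one_ne_zero
      rw [mul_one] at h2
      rw [h1] at hB1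
      omega
    · exact h0
  obtain ⟨c, hc, n₀, H⟩ := hMA Cl 5 hCL h hh {B} ⟨B, rfl⟩ (by
    rintro A rfl
    exact ⟨hB, hB2⟩)
  refine ⟨c, hc, n₀, fun n hn => ?_⟩
  have hN : (0 : ℝ) < num Cl n := by exact_mod_cast hNP n
  unfold share
  rw [div_le_iff₀ hN]
  refine le_trans ?_ (H n hn)
  have h1 : cnt Cl n (fun G => (f (chr G) : ℝ) < c * n) ≤
      cnt Cl n (fun G => ({W | Site {B} G W}.ncard : ℝ) < c * n) := by
    apply cnt_mono
    intro G _ hG
    refine lt_of_le_of_lt ?_ hG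
    exact_mod_cast lin_sites hf hB2 hB1 G
  exact_mod_cast h1

theorem t_PH : S_PH := by
  intro k t v w hv hw
  unfold phase
  rw [norm_mul, Real.log_mul (norm_ne_zero_iff.2 hv) (norm_ne_zero_iff.2 hw), ← Circle.exp_add]
  have h1 : ∃ N : ℤ, (v * w).arg = v.arg + w.arg + N * (2 * Real.pi) := by
    have h2 : ((v * w).arg : Real.Angle) = ((v.arg + w.arg : ℝ) : Real.Angle) := by
      rw [Complex.arg_mul_coe_angle hv hw, Real.Angle.coe_add]
    obtain ⟨N, hN⟩ := Real.Angle.angle_eq_iff_two_pi_dvd_sub.1 h2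
    exact ⟨N, by linarith⟩
  obtain ⟨N, hN⟩ := h1
  rw [hN]
  have h3 : (k : ℝ) * (v.arg + w.arg + N * (2 * Real.pi)) + t * (Real.log ‖v‖ + Real.log ‖w‖) =
      ((k * N : ℤ) : ℝ) * (2 * Real.pi) + (k * v.arg + t * Real.log ‖v‖ + (k * w.arg + t * Real.log ‖w‖)) := by
    push_cast
    ring
  rw [h3, Circle.exp_add]
  have h4 : Circle.exp (((k * N : ℤ) : ℝ) * (2 * Real.pi)) = 1 := by
    rw [Circle.exp_eq_one]
    exact ⟨k * N, rfl⟩
  rw [h4, one_mul]

end Pool.Agent.D0H36.LW
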