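import Pool.Agent.D0H36.BL.PlanP

/-!
# Laws of large characters for the chromatic polynomials of labelled planar graphs: statements

Author: helper36.

`Cl V G`: `G` is planar (no weak `K₅`, no weak `K₃₃`).  `chr G` is the chromatic polynomial.

* BOW: the bow tie (two triangles with a common vertex) is planar, `TwoEdge`, with chromatic polynomial
  `X (X-1)^2 (X-2)^2`; the book graph on `Fin h` has `X (X-1) (X-2)^(h-2)`.  For the planarity of the bow
  tie: a graph on five vertices which is not complete is in `Cl` (`wk_inj`, `wb_inj` of `MinP`: the five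
  points of a weak `K₅` are different, so they are all the vertices, and the walk between `x a` and `x b` only
  meets `x a`, `x b`, as each other `x c` is in a set disjoint from `A a b`; so all pairs are adjacent).
* TRIV: if all `TwoEdge` planar graphs on the same `Fin h` have the same `φ (chr G)`, then
  `φ (chr G) = φ X ^ c * φ (X - 1) ^ d`, `c + d` the number of vertices, `c = 1` for connected graphs.
  Proof: (BOW) with `h = 5` gives `φ (X - 1) = φ (X - 2)`.  Strong induction on the number of the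
  vertices.  `TwoEdge` and at least three vertices: as the book graph.  Not `TwoEdge`: there is a set with at
  most one leaving edge: `hPR` and the induction hypothesis; if `G` is connected then exactly one edge leaves
  and the two parts are connected.  At most two vertices which are `TwoEdge`: no vertex or one vertex.
* CBIN: `(s.choose (s / 2))^2 * (s + 1) ≤ 2 * 4 ^ s`.
* FG: from UNI, by the characters of the finite group `M` (`AddChar.sum_apply_eq_ite` with `Additive M`):
  `|M| [φ = a] = ∑ ψ, ψ (φ / a)`; for the `ψ` which are `1` on all values the summand is `1`,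
  for the others the mean is exponentially small (UNI for `ψ ∘ φ`: as `φ X = φ (X - 1) = 1`,
  the first alternative of UNI gives by TRIV... `ψ (φ (chr G)) = 1`; so UNI is stated below such that this is
  immediate).  So each value is taken by a share `κ + O (exp (-c n))`, and `κ` times the number of the values
  is `1`.
-/

set_option autoImplicit false

namespace Pool.Agent.D0H36.LW

open Polynomial Pool.Agent.H207R2.BL Pool.Agent.D0H36.BL
open Pool.Agent.R814.BL (Cl)

/-- `φ` is multiplicative on a set of polynomials, closed under products, which contains `1`, `X`, `X - 1`,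
`X - 2` and the chromatic polynomials of the planar graphs -/
def IsMul {M : Type} [CommGroup M] (φ : ℝ[X] → M) : Prop :=
  ∃ S : Submonoid ℝ[X], X ∈ S ∧ X - 1 ∈ S ∧ X - 2 ∈ S ∧
    (∀ (V : Type) [Finite V] (G : SimpleGraph V), Cl V G → chr G ∈ S) ∧
    ∀ p ∈ S, ∀ q ∈ S, φ (p * q) = φ p * φ q

/-- (BOW) -/
def S_BOW : Prop :=
  (∃ A : SimpleGraph (Fin 5), Cl (Fin 5) A ∧ TwoEdge A ∧ chr A = X * (X - 1) ^ 2 * (X - 2) ^ 2) ∧
    ∀ h : ℕ, 2 ≤ h → chr (book h) = X * (X - 1) * (X - 2) ^ (h - 2)

/-- all `TwoEdge` planar graphs with the same number of vertices have the same value -/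
def Triv {M : Type} (φ : ℝ[X] → M) : Prop :=
  ∀ (h : ℕ) (A B : SimpleGraph (Fin h)), Cl (Fin h) A → Cl (Fin h) B → TwoEdge A → TwoEdge B →
    φ (chr A) = φ (chr B)

/-- (TRIV) -/
def S_TRIV : Prop := ∀ (M : Type) [CommGroup M] (φ : ℝ[X] → M), IsMul φ → Triv φ →
  ∀ (V : Type) [Finite V] (G : SimpleGraph V), Cl V G → ∃ c d : ℕ, c + d = Nat.card V ∧
    (Nonempty V → 1 ≤ c) ∧ (G.Connected → c = 1) ∧ φ (chr G) = φ X ^ c * φ (X - 1) ^ d

/-- (CBIN) -/
def S_CBIN : Prop := ∀ s : ℕ, (s.choose (s / 2)) ^ 2 * (s + 1) ≤ 2 * 4 ^ s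

open Classical in
/-- (UNI) the mean over the labelled planar graphs is exponentially small -/
def S_UNI : Prop := ∀ φ : ℝ[X] → Circle, IsMul φ → ¬ Triv φ →
  ∃ c : ℝ, 0 < c ∧ ∃ n₀ : ℕ, ∀ n : ℕ, n₀ ≤ n →
    ‖∑ G : SimpleGraph (Fin n) with Cl (Fin n) G, (φ (chr G) : ℂ)‖ ≤ Real.exp (-(c * n)) * num Cl n

/-- the values -/
def vals {M : Type} (φ : ℝ[X] → M) : Set M :=
  {a | ∃ (V : Type) (_ : Finite V) (G : SimpleGraph V), Cl V G ∧ φ (chr G) = a}

/-- (FG) equidistribution in finite groups -/
def S_FG : Prop := ∀ (M : Type) [CommGroup M] [Finite M] (φ : ℝ[X] → M), IsMul φ → φ X = 1 →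
  φ (X - 1) = 1 → ∀ a ∈ vals φ, ∃ c : ℝ, 0 < c ∧ ∃ n₀ : ℕ, ∀ n : ℕ, n₀ ≤ n →
    |share Cl n (fun G => φ (chr G) = a) - 1 / ((vals φ).ncard : ℝ)| ≤ Real.exp (-(c * n))

/-- (SPR) anti-concentration of additive functions (`Multiplicative ℝ` is the additive group `ℝ`) -/
def S_SPR : Prop := ∀ f : ℝ[X] → Multiplicative ℝ, IsMul f → ¬ Triv f →
  ∃ δ : ℝ, 0 < δ ∧ ∃ C : ℝ, ∀ n : ℕ, 1 ≤ n → ∀ x : ℝ,
    share Cl n (fun G => x ≤ (f (chr G)).toAdd ∧ (f (chr G)).toAdd < x + δ) ≤ C / Real.sqrt n

end Pool.Agent.D0H36.LW
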