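import Pool.Agent.D0H36.LW.Swap

/-!
# (UNI) and (SPR)
-/

set_option autoImplicit false

namespace Pool.Agent.D0H36.LW

open Finset Polynomial Pool.Agent.H207R2.BL Pool.Agent.D0H36.BL
open Pool.Agent.R814.BL (Cl)

section

variable {h n : ℕ} {A B : SimpleGraph (Fin h)}

theorem site_poly {T : Set (SimpleGraph (Fin h))} {G : SimpleGraph (Fin n)}
    {W : Finset (Fin n)} (hs : Site T G W) :
    X * chr G = (X - 1) * (chr (G.comap (W.orderEmbOfFin hs.card)) *
      chr (G.induce ((W : Set (Fin n))ᶜ))) := by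
  obtain ⟨r, x, hr, hx, hrx⟩ := hs.one
  have h1 := (hPR (Fin n) G (W : Set (Fin n))).2 r x hr hx hrx
  rw [chr_of_iso (lookIso G hs.card)]
  exact h1

theorem cl_induce {V : Type} {G : SimpleGraph V} (hG : Cl V G) (s : Set V) : Cl s (G.induce s) :=
  hCL.emb s V Subtype.val Subtype.val_injective G hG

theorem val_repl {M : Type} [CommGroup M] {φ : ℝ[X] → M} (hφ : IsMul φ) {G : SimpleGraph (Fin n)}
    (hG : Cl _ G) {W : Finset (Fin n)} (hW : W.card = h) (hs : Site {A, B} G W)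
    (hl : G.comap (W.orderEmbOfFin hW) = A) (hA : Cl _ A) (hB : Cl _ B) :
    φ (chr (repl G W hW B)) = φ (chr B) / φ (chr A) * φ (chr G) := by
  obtain ⟨S, hX, hX1, _, hS, hm⟩ := hφ
  have h1 := site_poly hs
  have hs' : Site {A, B} (repl G W hs.card B) W := site_repl hs (Or.inr rfl)
  have h2 := site_poly hs'
  have h3 : (repl G W hs.card B).comap (W.orderEmbOfFin hs'.card) = B := repl_look _ _ _ _
  have h4 : (repl G W hs.card B).induce ((W : Set (Fin n))ᶜ) =
      G.induce ((W : Set (Fin n))ᶜ) := by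
    ext a b
    exact repl_off _ _ _ _ (fun h => a.2 h.1)
  have hl' : G.comap (W.orderEmbOfFin hs.card) = A := hl
  rw [h3, h4] at h2
  rw [hl'] at h1
  have hR : Cl _ (G.induce ((W : Set (Fin n))ᶜ)) := cl_induce hG _
  have hGB : Cl _ (repl G W hs.card B) := cls_repl hCL hs hB hG
  have e1 := congrArg φ h1
  have e2 := congrArg φ h2
  have mAR : chr A * chr (G.induce ((W : Set (Fin n))ᶜ)) ∈ S := S.mul_mem (hS _ A hA) (hS _ _ hR)
  have mBR : chr B * chr (G.induce ((W : Set (Fin n))ᶜ)) ∈ S := S.mul_mem (hS _ B hB) (hS _ _ hR)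
  rw [hm _ hX _ (hS _ G hG), hm _ hX1 _ mAR, hm _ (hS _ A hA) _ (hS _ _ hR)] at e1
  rw [hm _ hX _ (hS _ _ hGB), hm _ hX1 _ mBR, hm _ (hS _ B hB) _ (hS _ _ hR)] at e2
  have e3 : φ (chr G) = (φ X)⁻¹ * (φ (X - 1) * (φ (chr A) * φ (chr (G.induce ((W : Set (Fin n))ᶜ))))) := by
    rw [← e1, inv_mul_cancel_left]
  have e4 : φ (chr (repl G W hs.card B)) =
      (φ X)⁻¹ * (φ (X - 1) * (φ (chr B) * φ (chr (G.induce ((W : Set (Fin n))ᶜ))))) := by
    rw [← e2, inv_mul_cancel_left]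
  show φ (chr (repl G W hs.card B)) = _
  rw [e4, e3]
  generalize φ (chr (G.induce ((W : Set (Fin n))ᶜ))) = R
  generalize φ (chr A) = a
  generalize φ (chr B) = b
  rw [div_eq_mul_inv]
  calc (φ X)⁻¹ * (φ (X - 1) * (b * R))
      = b * ((φ X)⁻¹ * (φ (X - 1) * R)) := by
        rw [mul_left_comm _ b R, mul_left_comm _ b]
    _ = b * a⁻¹ * (a * ((φ X)⁻¹ * (φ (X - 1) * R))) := by
        rw [mul_assoc b, inv_mul_cancel_left]
    _ = b * a⁻¹ * ((φ X)⁻¹ * (φ (X - 1) * (a * R))) := by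
        rw [mul_left_comm (φ (X - 1)) a R, mul_left_comm (φ X)⁻¹ a]

theorem sites_ncard {T : Set (SimpleGraph (Fin h))} (G : SimpleGraph (Fin n)) :
    {W | Site T G W}.ncard = (sitesOf T G).card := by
  classical
  rw [← Set.ncard_coe_finset]
  congr 1
  ext W
  simp [mem_sitesOf]

end

open Classical in
theorem num_eq (n : ℕ) : num Cl n = (univ.filter (fun G : SimpleGraph (Fin n) => Cl (Fin n) G)).card := by
  unfold num
  rw [cnt_eq]
  congr 1
  ext G
  simp

open Classical in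
/-- sums of weights of the number of the sites -/
theorem sum_weight {h : ℕ} {A B : SimpleGraph (Fin h)} (hh : 0 < h)
    (hT : ∀ K ∈ ({A, B} : Set (SimpleGraph (Fin h))), TwoEdge K)
    (hcl : ∀ K ∈ ({A, B} : Set (SimpleGraph (Fin h))), Cl _ K) :
    ∃ c : ℝ, 0 < c ∧ ∃ n₀ : ℕ, ∀ ω : ℕ → ℝ, (∀ a b, a ≤ b → ω b ≤ ω a) → (∀ a, 0 ≤ ω a) →
      (∀ a, ω a ≤ 2) → ∀ n : ℕ, n₀ ≤ n →
      ∑ G : SimpleGraph (Fin n) with Cl (Fin n) G, ω (sitesOf {A, B} G).card ≤
        (2 * Real.exp (-(c * n)) + ω ⌈c * n⌉₊) * num Cl n := by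
  obtain ⟨c, hc, n₀, H⟩ := hMA Cl 5 hCL h hh {A, B} ⟨A, Or.inl rfl⟩ (fun K hK => ⟨hcl K hK, hT K hK⟩)
  refine ⟨c, hc, n₀, fun ω hω h0 h2 n hn => ?_⟩
  have H1 := H n hn
  rw [cnt_eq] at H1
  have h3 : ∀ G : SimpleGraph (Fin n), ω (sitesOf {A, B} G).card ≤
      (if ({W | Site {A, B} G W}.ncard : ℝ) < c * n then 2 else 0) + ω ⌈c * n⌉₊ := by
    intro G
    split_ifs with hG
    · have := h2 (sitesOf {A, B} G).card
      have := h0 ⌈c * n⌉₊
      linarith
    · rw [zero_add]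
      apply hω
      rw [Nat.ceil_le]
      rw [sites_ncard] at hG
      exact not_lt.1 hG
  refine (Finset.sum_le_sum (fun G _ => h3 G)).trans ?_
  rw [Finset.sum_add_distrib, Finset.sum_const, nsmul_eq_mul, ← num_eq, ← Finset.sum_filter,
    Finset.sum_const, nsmul_eq_mul, Finset.filter_filter]
  nlinarith

theorem norm_one_add_lt {w : ℂ} (hw : ‖w‖ = 1) (hw1 : w ≠ 1) : ‖1 + w‖ < 2 := by
  by_contra hcon
  push Not at hcon
  apply hw1
  have h1 : ‖(1 : ℂ) + w‖ ^ 2 = 1 + 2 * w.re + ‖w‖ ^ 2 := by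
    rw [← Complex.normSq_eq_norm_sq, ← Complex.normSq_eq_norm_sq, Complex.normSq_apply,
      Complex.normSq_apply, Complex.add_re, Complex.add_im, Complex.one_re, Complex.one_im]
    ring
  have h2 : ‖w‖ ^ 2 = w.re ^ 2 + w.im ^ 2 := by
    rw [← Complex.normSq_eq_norm_sq, Complex.normSq_apply]
    ring
  rw [hw] at h1 h2
  have h3 : 1 ≤ w.re := by nlinarith
  have h4 : w.im = 0 := by nlinarith
  have h5 : w.re = 1 := by nlinarith
  exact Complex.ext (by rw [h5, Complex.one_re]) (by rw [h4, Complex.one_im])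

theorem t_UNI : S_UNI := by
  classical
  intro φ hφ hne
  unfold Triv at hne
  push Not at hne
  obtain ⟨h, A, B, hA, hB, hA2, hB2, hAB⟩ := hne
  have hAB' : A ≠ B := fun hh => hAB (by rw [hh])
  have hh : 0 < h := by
    rcases Nat.eq_zero_or_pos h with rfl | h0
    · exact absurd (Subsingleton.elim A B) hAB'
    · exact h0
  have hT : ∀ K ∈ ({A, B} : Set (SimpleGraph (Fin h))), TwoEdge K := by
    rintro K (rfl | rfl)
    · exact hA2
    · exact hB2
  have hcl : ∀ K ∈ ({A, B} : Set (SimpleGraph (Fin h))), Cl _ K := by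
    rintro K (rfl | rfl)
    · exact hA
    · exact hB
  obtain ⟨c, hc, n₀, H⟩ := sum_weight hh hT hcl
  set w : Circle := φ (chr B) / φ (chr A) with hw
  have hw1 : (w : ℂ) ≠ 1 := by
    intro h1
    have h2 : w = 1 := Circle.ext h1
    rw [hw, div_eq_one] at h2
    exact hAB h2.symm
  have hr2 : ‖1 + (w : ℂ)‖ < 2 := norm_one_add_lt (Circle.norm_coe w) hw1
  set r : ℝ := max (‖1 + (w : ℂ)‖ / 2) (1 / 2) with hr
  have hr0 : 0 < r := lt_of_lt_of_le (by norm_num) (le_max_right _ _)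
  have hr1 : r < 1 := max_lt (by linarith) (by norm_num)
  have hκ : 0 < -Real.log r := neg_pos.2 (Real.log_neg hr0 hr1)
  set κ := -Real.log r with hκd
  have hexp : ∀ m : ℕ, r ^ m = Real.exp (-(κ * m)) := by
    intro m
    rw [hκd, neg_mul, neg_neg, mul_comm, Real.exp_nat_mul, Real.exp_log hr0]
  set c2 := min c (κ * c) with hc2
  have hc2p : 0 < c2 := lt_min hc (mul_pos hκ hc)
  refine ⟨c2 / 2, by linarith, max n₀ ⌈4 / c2⌉₊, fun n hn => ?_⟩
  have hn1 : n₀ ≤ n := (le_max_left _ _).trans hn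
  have hn2 : 4 / c2 ≤ n := (Nat.ceil_le).1 ((le_max_right _ _).trans hn)
  have hN : (0 : ℝ) ≤ num Cl n := by positivity
  have h1 := norm_sum_sites hCL hAB' hT hcl (n := n) (fun G => (φ (chr G) : ℂ)) (w : ℂ)
    (fun G => (Circle.norm_coe _).le) (by
      intro G W hW hG hs hl
      show ((φ (chr (repl G W hW B)) : Circle) : ℂ) = (w : ℂ) * (φ (chr G) : ℂ)
      rw [val_repl hφ hG hW hs hl hA hB, Circle.coe_mul])
  have h2 : ∑ G : SimpleGraph (Fin n) with Cl (Fin n) G,
      (‖1 + (w : ℂ)‖ / 2) ^ (sitesOf {A, B} G).card ≤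
      ∑ G : SimpleGraph (Fin n) with Cl (Fin n) G, r ^ (sitesOf {A, B} G).card := by
    refine Finset.sum_le_sum (fun G _ => ?_)
    exact pow_le_pow_left₀ (by positivity) (le_max_left _ _) _
  have h3 := H (fun m => r ^ m) (fun a b hab => pow_le_pow_of_le_one hr0.le hr1.le hab)
    (fun a => by positivity) (fun a => (pow_le_one₀ hr0.le hr1.le).trans (by norm_num)) n hn1
  refine (h1.trans (h2.trans h3)).trans (mul_le_mul_of_nonneg_right ?_ hN)
  have h4 : r ^ ⌈c * n⌉₊ ≤ Real.exp (-(c2 * n)) := by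
    rw [hexp]
    apply Real.exp_le_exp.2
    have h5 : c * n ≤ (⌈c * n⌉₊ : ℝ) := Nat.le_ceil _
    have h6 : c2 ≤ κ * c := min_le_right _ _
    have h7 : κ * (c * n) ≤ κ * (⌈c * n⌉₊ : ℝ) := mul_le_mul_of_nonneg_left h5 hκ.le
    have h8 : c2 * n ≤ κ * c * n := mul_le_mul_of_nonneg_right h6 (by positivity)
    nlinarith
  have h5 : Real.exp (-(c * n)) ≤ Real.exp (-(c2 * n)) := by
    apply Real.exp_le_exp.2
    have h6 : c2 ≤ c := min_le_left _ _
    have h8 : c2 * n ≤ c * n := mul_le_mul_of_nonneg_right h6 (by positivity)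
    linarith
  have h6 : Real.exp (-(c2 * n)) = Real.exp (-(c2 / 2 * n)) * Real.exp (-(c2 / 2 * n)) := by
    rw [← Real.exp_add]
    congr 1
    ring
  have h7 : Real.exp (-(c2 / 2 * n)) ≤ 1 / 3 := by
    have h8 : 2 ≤ c2 / 2 * n := by
      rw [div_le_iff₀ hc2p] at hn2
      nlinarith
    have h9 : 1 + 2 ≤ Real.exp (c2 / 2 * n) := by
      have := Real.add_one_le_exp (c2 / 2 * n)
      linarith
    rw [Real.exp_neg, ← one_div]
    exact one_div_le_one_div_of_le (by norm_num) (by linarith)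
  have h8 : 0 < Real.exp (-(c2 / 2 * n)) := Real.exp_pos _
  nlinarith

/-! ### anti-concentration -/

theorem one_hit (y g x : ℝ) (hg : g ≠ 0) (m : ℕ) :
    ∑ j ∈ range m, (if x ≤ y + j * g ∧ y + j * g < x + |g| then (1 : ℝ) else 0) ≤ 1 := by
  rw [← Finset.sum_filter, Finset.sum_const, nsmul_eq_mul, mul_one]
  have h1 : ((range m).filter (fun j : ℕ => x ≤ y + j * g ∧ y + j * g < x + |g|)).card ≤ 1 := by
    rw [Finset.card_le_one]
    intro a ha b hb
    obtain ⟨_, ha1, ha2⟩ := Finset.mem_filter.1 ha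
    obtain ⟨_, hb1, hb2⟩ := Finset.mem_filter.1 hb
    by_contra hne
    have h2 : |((a : ℝ) - b) * g| < |g| := by
      rw [abs_lt]
      constructor <;> nlinarith
    rw [abs_mul] at h2
    have h3 : 0 < |g| := abs_pos.2 hg
    have h4 : |(a : ℝ) - b| < 1 := by
      by_contra hcon
      push Not at hcon
      nlinarith
    have h5 : |((a : ℤ) - (b : ℤ) : ℤ)| < 1 := by
      have h6 : ((|((a : ℤ) - (b : ℤ) : ℤ)| : ℤ) : ℝ) < 1 := by
        push_cast
        exact h4
      exact_mod_cast h6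
    rw [Int.abs_lt_one_iff] at h5
    omega
  exact_mod_cast h1

open Classical in
theorem fam_spread (hCB : S_CBIN) {h n : ℕ} {A B : SimpleGraph (Fin h)} (hAB : A ≠ B)
    (hT : ∀ K ∈ ({A, B} : Set (SimpleGraph (Fin h))), TwoEdge K)
    (hcl : ∀ K ∈ ({A, B} : Set (SimpleGraph (Fin h))), Cl _ K)
    (f : SimpleGraph (Fin n) → ℝ) (g : ℝ) (hg : g ≠ 0)
    (hF : ∀ (G : SimpleGraph (Fin n)) (W : Finset (Fin n)) (hW : W.card = h), Cl (Fin n) G →
      Site {A, B} G W → G.comap (W.orderEmbOfFin hW) = A → f (repl G W hW B) = f G + g)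
    (x : ℝ) (S : Finset (Finset (Fin n))) :
    ∑ G ∈ Fam Cl A B S ∅, (if x ≤ f G ∧ f G < x + |g| then (1 : ℝ) else 0) ≤
      Real.sqrt (2 / (S.card + 1)) * ((Fam Cl A B S ∅).card : ℝ) := by
  by_cases hS : ∀ W ∈ S, W.card = h
  · have h1 := fam_add hCL hAB hT hcl f g hF (fun y => if x ≤ y ∧ y < x + |g| then (1 : ℝ) else 0) hS S
      (Finset.Subset.refl _)
    rw [h1, fam_card hCL hAB hT hcl hS]
    have h2 : ∑ j ∈ range (S.card + 1), (S.card.choose j : ℝ) *
        ∑ G ∈ Fam Cl A B S S, (if x ≤ f G + j * g ∧ f G + j * g < x + |g| then (1 : ℝ) else 0) ≤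
        (S.card.choose (S.card / 2) : ℝ) * ((Fam Cl A B S S).card : ℝ) := by
      calc _ ≤ ∑ j ∈ range (S.card + 1), (S.card.choose (S.card / 2) : ℝ) *
            ∑ G ∈ Fam Cl A B S S, (if x ≤ f G + j * g ∧ f G + j * g < x + |g| then (1 : ℝ) else 0) := by
            refine Finset.sum_le_sum (fun j _ => mul_le_mul_of_nonneg_right ?_ ?_)
            · exact_mod_cast Nat.choose_le_middle j S.card
            · exact Finset.sum_nonneg (fun G _ => by split_ifs <;> norm_num)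
        _ = (S.card.choose (S.card / 2) : ℝ) * ∑ G ∈ Fam Cl A B S S, ∑ j ∈ range (S.card + 1),
            (if x ≤ f G + j * g ∧ f G + j * g < x + |g| then (1 : ℝ) else 0) := by
            rw [← Finset.mul_sum, Finset.sum_comm]
        _ ≤ (S.card.choose (S.card / 2) : ℝ) * ∑ G ∈ Fam Cl A B S S, (1 : ℝ) := by
            refine mul_le_mul_of_nonneg_left (Finset.sum_le_sum (fun G _ => one_hit _ _ _ hg _)) ?_
            positivity
        _ = _ := by simp
    refine h2.trans ?_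
    rw [← mul_assoc]
    refine mul_le_mul_of_nonneg_right ?_ (by positivity)
    have h3 : ((S.card.choose (S.card / 2) : ℕ) : ℝ) ^ 2 * (S.card + 1) ≤ 2 * 4 ^ S.card := by
      exact_mod_cast hCB S.card
    have h4 : (0 : ℝ) < S.card + 1 := by positivity
    have h5 : ((S.card.choose (S.card / 2) : ℕ) : ℝ) ^ 2 ≤ (2 / (S.card + 1)) * (2 ^ S.card) ^ 2 := by
      have h6 : ((2 : ℝ) ^ S.card) ^ 2 = 4 ^ S.card := by
        rw [← pow_mul, mul_comm, pow_mul]
        norm_num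
      rw [h6, div_mul_eq_mul_div, le_div_iff₀ h4]
      exact h3
    have h7 : (Real.sqrt (2 / (S.card + 1)) * 2 ^ S.card) ^ 2 =
        (2 / (S.card + 1)) * ((2 : ℝ) ^ S.card) ^ 2 := by
      rw [mul_pow, Real.sq_sqrt (by positivity)]
    rw [← h7] at h5
    exact le_of_sq_le_sq h5 (by positivity)
  · have h4 : Fam Cl A B S ∅ = ∅ := by
      rw [Finset.eq_empty_iff_forall_notMem]
      intro G hG
      rw [mem_Fam] at hG
      apply hS
      intro W hW
      rw [← hG.2.1, mem_sitesOf] at hW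
      exact hW.card
    rw [h4]
    simp

theorem t_SPR (hCB : S_CBIN) : S_SPR := by
  classical
  intro f hf hne
  unfold Triv at hne
  push Not at hne
  obtain ⟨h, A, B, hA, hB, hA2, hB2, hAB⟩ := hne
  have hAB' : A ≠ B := fun hh => hAB (by rw [hh])
  have hh : 0 < h := by
    rcases Nat.eq_zero_or_pos h with rfl | h0
    · exact absurd (Subsingleton.elim A B) hAB'
    · exact h0
  have hT : ∀ K ∈ ({A, B} : Set (SimpleGraph (Fin h))), TwoEdge K := by
    rintro K (rfl | rfl)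
    · exact hA2
    · exact hB2
  have hcl : ∀ K ∈ ({A, B} : Set (SimpleGraph (Fin h))), Cl _ K := by
    rintro K (rfl | rfl)
    · exact hA
    · exact hB
  obtain ⟨c, hc, n₀, H⟩ := sum_weight hh hT hcl
  set g : ℝ := (f (chr B)).toAdd - (f (chr A)).toAdd with hg
  have hg0 : g ≠ 0 := by
    intro h1
    apply hAB
    have h2 : (f (chr B)).toAdd = (f (chr A)).toAdd := by linarith
    exact (Multiplicative.toAdd.injective h2).symm
  refine ⟨|g|, abs_pos.2 hg0, 2 / c + Real.sqrt (2 / c) + Real.sqrt n₀, fun n hn x => ?_⟩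
  have hn0 : (0 : ℝ) < n := by exact_mod_cast hn
  have hsn : 0 < Real.sqrt n := Real.sqrt_pos.2 hn0
  rw [le_div_iff₀ hsn]
  by_cases hnn : n₀ ≤ n
  · have h1 : ∑ G : SimpleGraph (Fin n) with Cl (Fin n) G,
        (if x ≤ (f (chr G)).toAdd ∧ (f (chr G)).toAdd < x + |g| then (1 : ℝ) else 0) ≤
        ∑ G : SimpleGraph (Fin n) with Cl (Fin n) G,
          Real.sqrt (2 / (((sitesOf {A, B} G).card : ℝ) + 1)) := by
      rw [sum_by_sites (A := A) (B := B), sum_by_sites (A := A) (B := B)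
        (fun G => Real.sqrt (2 / (((sitesOf {A, B} G).card : ℝ) + 1)))]
      refine Finset.sum_le_sum (fun S _ => ?_)
      refine (fam_spread hCB hAB' hT hcl (fun G => (f (chr G)).toAdd) g hg0 ?_ x S).trans
        (le_of_eq ?_)
      · intro G W hW hG hs hl
        show (f (chr (repl G W hW B))).toAdd = (f (chr G)).toAdd + g
        rw [val_repl hf hG hW hs hl hA hB, toAdd_mul, toAdd_div]
        ring
      · rw [Finset.sum_congr rfl (g := fun _ => Real.sqrt (2 / ((S.card : ℝ) + 1))) (fun G hG => by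
          rw [(mem_Fam.1 hG).2.1]), Finset.sum_const, nsmul_eq_mul, mul_comm]
    have h2 := H (fun m => Real.sqrt (2 / ((m : ℝ) + 1))) (by
      intro a b hab
      apply Real.sqrt_le_sqrt
      have : (a : ℝ) ≤ b := by exact_mod_cast hab
      exact div_le_div_of_nonneg_left (by norm_num) (by positivity) (by linarith))
      (fun a => Real.sqrt_nonneg _) (by
      intro a
      rw [Real.sqrt_le_left (by norm_num)]
      rw [div_le_iff₀ (by positivity)]
      have : (0 : ℝ) ≤ a := by positivity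
      nlinarith) n hnn
    have hN : (0 : ℝ) < num Cl n := by exact_mod_cast hNP n
    have h3 : share Cl n (fun G => x ≤ (f (chr G)).toAdd ∧ (f (chr G)).toAdd < x + |g|) ≤
        2 * Real.exp (-(c * n)) + Real.sqrt (2 / ((⌈c * n⌉₊ : ℝ) + 1)) := by
      unfold share
      rw [div_le_iff₀ hN]
      refine le_trans (le_of_eq ?_) (h1.trans h2)
      rw [cnt_eq, ← Finset.sum_filter, Finset.sum_const, nsmul_eq_mul, mul_one, Finset.filter_filter]
    refine (mul_le_mul_of_nonneg_right h3 hsn.le).trans ?_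
    have h4 : Real.sqrt (2 / ((⌈c * n⌉₊ : ℝ) + 1)) * Real.sqrt n ≤ Real.sqrt (2 / c) := by
      rw [← Real.sqrt_mul (by positivity)]
      apply Real.sqrt_le_sqrt
      rw [div_mul_eq_mul_div, div_le_div_iff₀ (by positivity) hc]
      have h5 : c * n ≤ (⌈c * n⌉₊ : ℝ) := Nat.le_ceil _
      nlinarith
    have h5 : Real.exp (-(c * n)) * Real.sqrt n ≤ 1 / c := by
      have h6 : c * n ≤ Real.exp (c * n) := by
        have := Real.add_one_le_exp (c * n)
        linarith
      have h7 : Real.sqrt n ≤ n := by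
        rw [Real.sqrt_le_left hn0.le]
        have : (1 : ℝ) ≤ n := by exact_mod_cast hn
        nlinarith
      rw [Real.exp_neg, inv_mul_eq_div, div_le_div_iff₀ (Real.exp_pos _) hc]
      nlinarith
    have h6 : 0 ≤ Real.sqrt n₀ := Real.sqrt_nonneg _
    calc (2 * Real.exp (-(c * n)) + Real.sqrt (2 / ((⌈c * n⌉₊ : ℝ) + 1))) * Real.sqrt n
        = 2 * (Real.exp (-(c * n)) * Real.sqrt n) +
          Real.sqrt (2 / ((⌈c * n⌉₊ : ℝ) + 1)) * Real.sqrt n := by ring
      _ ≤ 2 * (1 / c) + Real.sqrt (2 / c) := by linarith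
      _ ≤ 2 / c + Real.sqrt (2 / c) + Real.sqrt n₀ := by
          have : 2 * (1 / c) = 2 / c := by ring
          linarith
  · have h1 : Real.sqrt n ≤ Real.sqrt n₀ := by
      apply Real.sqrt_le_sqrt
      have : n ≤ n₀ := by omega
      exact_mod_cast this
    have h2 : share Cl n (fun G => x ≤ (f (chr G)).toAdd ∧ (f (chr G)).toAdd < x + |g|) ≤ 1 :=
      share_le_one _
    have h3 : 0 ≤ Real.sqrt (2 / c) := Real.sqrt_nonneg _
    have h4 : 0 ≤ 2 / c := by positivity
    nlinarith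

end Pool.Agent.D0H36.LW
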